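import Pool.Agent.FlatClosing.Assembly
import Pool.Agent.FlatClosing.XCat0
import Pool.Agent.FlatClosing.AlgD
import Pool.Agent.FlatClosing.NonHyp
import Pool.Agent.FlatClosing.NoHalf
import Pool.Agent.FlatClosing.FlatGrid5

/-!
# A non-hyperbolic group acting geometrically on a CAT(0) square complex, all of whose elements of
infinite order are rank-one isometries (MP_ef842e_al, negative answer to Q1 and Q2)

The group `FlatClosing.GG` is the fundamental group of an explicit square of finite groups with
trivial face group.  Its square complex contains arbitrarily large flat discs, which come from a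
substitution endomorphism of the group, and every half-flat can be desubstituted, so that a period
of the boundary leads to an infinite descent.
-/

set_option autoImplicit false

namespace Pool.Agent.Results.MP_ef842e_al.RankOneNotHyperbolic

open Pool.Agent.FlatClosing

/-- No axis of an element of the group bounds a flat half-plane. -/
theorem no_halfplane (g : FlatClosing.GG) (γ : ℝ → FlatClosing.DD.X) (hγ : IsAxis g γ) :
    ¬ BoundsHalfPlane γ := by
  intro hB
  obtain ⟨f, l, hf, hl, hfl⟩ := hB.normalise hγ
  classical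
  have key : FGSlanted FlatClosing.DD g ∨ FGHorizontal FlatClosing.DD g ∨
      FGVertical FlatClosing.DD g := by
    refine flat_grid FlatClosing.DD g
      (fun w => if h : 0 ≤ w.2 then f (hp w.1 w.2 h) else f (hp 0 0 le_rfl)) ?_ l hl.ne' ?_
    · intro w hw z hz
      have hw' : (0 : ℝ) ≤ w.2 := by
        have h1 : (0 : ℝ) ≤ 0 * w.1 + 1 * w.2 := hw
        linarith
      have hz' : (0 : ℝ) ≤ z.2 := by
        have h1 : (0 : ℝ) ≤ 0 * z.1 + 1 * z.2 := hz
        linarith
      simp only
      rw [dif_pos hw', dif_pos hz', hf.dist_eq, hp_dist, Real.sq_sqrt (by positivity)]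
    · intro x
      simp only
      rw [dif_pos (le_refl (0 : ℝ)), dif_pos (le_refl (0 : ℝ))]
      exact hfl x
  rcases key with h | h | h
  · obtain ⟨τ, a, b, n1, n2, C, h1, h2, ha, hb, ha0, -, hab, hflat, hper⟩ := h
    exact no_slanted h1.ne' h2.ne' hflat ha hb hab (Or.inl ha0) hper
  · obtain ⟨τ, y0, a, ha, ha0, hflat, hper⟩ := h
    exact no_horizontal hflat ha ha0 hper
  · obtain ⟨τ, x0, b, hb, hb0, hflat, hper⟩ := h
    exact no_vertical hflat hb hb0 hper

/-- **Negative answer to Q1 and Q2 of MP_ef842e_al.** -/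
theorem result : ∃ (G : Type) (_ : Group G) (X : Type) (_ : MetricSpace X) (_ : MulAction G X)
    (C : CubeComplex X),
    ProperSpace X ∧ IsCompleteCAT0 X ∧ SimplyConnectedSpace X ∧
    (∀ c, C.dim c ≤ 2) ∧ IsGeometric G X ∧ C.IsCellular G ∧
    Group.FG G ∧ ¬ IsHyperbolicGroup G ∧
    (∃ g : G, ¬ IsOfFinOrder g) ∧
    (∀ g : G, ¬ IsOfFinOrder g → IsRankOne (X := X) g) ∧
    ∀ (g : G) (γ : ℝ → X), IsAxis g γ → ¬ BoundsHalfPlane γ :=
  FlatClosing.DD.negativeAnswer FlatClosing.DD.geoCN_univ_X
    (not_hyperbolic FlatClosing.DD FlatClosing.SS.exists_patch) FlatClosing.exists_not_finOrder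
    no_halfplane

end Pool.Agent.Results.MP_ef842e_al.RankOneNotHyperbolic
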